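import Pool.Agent.TH901.H2A.Stm

/-!
# The second homology of Artin groups: assembly
-/

set_option autoImplicit false

namespace Pool.Agent.TH901.H2A

open Pool.Agent.Helper741
open scoped IsMulCommutative commutatorElement

section Basic

variable {B : Type} (M : CoxeterMatrix B)

lemma map_relator {G : Type} [Group G] (f : B → G) (i j : B) :
    FreeGroup.lift f (relator M i j) = val M f i j := by
  simp only [relator, val, map_mul, map_inv, map_alt, FreeGroup.lift_apply_of]

lemma relator_self (i : B) : relator M i i = 1 := by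
  simp [relator]

lemma relator_zero {i j : B} (h : M i j = 0) : relator M i j = 1 := by
  simp [relator, h]

lemma relator_symm (i j : B) : relator M j i = (relator M i j)⁻¹ := by
  simp [relator, M.symmetric i j]

lemma Mv.flip {p q : B × B} (h : Mv M p q) : Mv M p.swap q.swap := by
  cases h with
  | left h1 h2 h3 =>
    exact Mv.right (by rwa [M.symmetric]) (by rwa [M.symmetric]) h3
  | right h1 h2 h3 =>
    exact Mv.left (by rwa [M.symmetric]) (by rwa [M.symmetric]) h3
  | swap h1 h2 h3 =>
    exact Mv.swap (by rwa [M.symmetric]) (by rwa [M.symmetric]) (by rwa [M.symmetric])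

lemma Eqv.flip {p q : B × B} (h : Eqv M p q) : Eqv M p.swap q.swap := by
  induction h with
  | rel _ _ h => exact Relation.EqvGen.rel _ _ h.flip
  | refl _ => exact Relation.EqvGen.refl _
  | symm _ _ _ ih => exact ih.symm
  | trans _ _ _ _ _ ih1 ih2 => exact ih1.trans _ _ _ ih2

lemma eqv_flip_iff {p q : B × B} : Eqv M p q.swap ↔ Eqv M p.swap q := by
  constructor
  · intro h
    have := h.flip
    rwa [Prod.swap_swap] at this
  · intro h
    have := h.flip
    rwa [Prod.swap_swap] at this

/-- `[F, R]` -/
abbrev FR : Subgroup (FreeGroup B) := ⁅(⊤ : Subgroup (FreeGroup B)), rels M⁆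

instance : (rels M).Normal := Subgroup.normalClosure_normal

/-- `F / [F, R]` -/
abbrev EE : Type := FreeGroup B ⧸ FR M

lemma relator_mem (i j : B) : relator M i j ∈ rels M :=
  Subgroup.subset_normalClosure ⟨i, j, rfl⟩

lemma mk_central {g : FreeGroup B} (hg : g ∈ rels M) (e : EE M) :
    (QuotientGroup.mk g : EE M) * e = e * QuotientGroup.mk g := by
  induction e using QuotientGroup.induction_on with
  | H x =>
    rw [← QuotientGroup.mk_mul, ← QuotientGroup.mk_mul, QuotientGroup.eq]
    have h : ⁅x⁻¹, g⁻¹⁆ ∈ FR M := Subgroup.commutator_mem_commutator (Subgroup.mem_top _)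
      ((rels M).inv_mem hg)
    have h2 : (g * x)⁻¹ * (x * g) = ⁅x⁻¹, g⁻¹⁆ := by
      rw [commutatorElement_def]; group
    rwa [h2]

/-- the class of a relator -/
def zc (p : B × B) : Subgroup.center (EE M) :=
  ⟨QuotientGroup.mk (relator M p.1 p.2), by
    rw [Subgroup.mem_center_iff]
    intro e
    exact (mk_central M (relator_mem M _ _) e).symm⟩

end Basic

section Theta

variable {B : Type} [Fintype B] [DecidableEq B] (M : CoxeterMatrix B)

/-- The natural map from the free abelian group on the pairs to `R / [F, R]`. -/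
noncomputable def Th : (B × B → ℤ) →+ Additive (Subgroup.center (EE M)) :=
  ∑ p, (zmultiplesHom _ (Additive.ofMul (zc M p))).comp (Pi.evalAddMonoidHom _ p)

lemma Th_apply (x : B × B → ℤ) : Th M x = ∑ p, x p • Additive.ofMul (zc M p) := by
  simp [Th]

lemma Th_single (p : B × B) : Th M (Pi.single p 1) = Additive.ofMul (zc M p) := by
  rw [Th_apply, Finset.sum_eq_single p]
  · simp
  · intro q _ hq
    simp [Pi.single_eq_of_ne hq]
  · simp

lemma zc_val (f : B → EE M) (hf : f = fun i => QuotientGroup.mk (FreeGroup.of i)) (i j : B) :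
    val M f i j = (zc M (i, j) : EE M) := by
  subst hf
  have h := map_relator M (fun i => (QuotientGroup.mk (FreeGroup.of i) : EE M)) i j
  rw [← h]
  have h2 : FreeGroup.lift (fun i => (QuotientGroup.mk (FreeGroup.of i) : EE M)) =
      QuotientGroup.mk' (FR M) := by
    ext i
    simp
  rw [h2]
  rfl

theorem relK_le (hup : S_up) : relK M ≤ (Th M).ker := by
  have hval := zc_val M _ rfl
  obtain ⟨h1, h2⟩ := hup B M (EE M) (fun i => QuotientGroup.mk (FreeGroup.of i)) (by
    intro i j g
    rw [hval]
    exact mk_central M (relator_mem M _ _) g)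
  rw [relK, AddSubgroup.closure_le]
  rintro x (((⟨i, j, h, rfl⟩ | ⟨i, j, rfl⟩) | ⟨i, j, k, ha, hb, hc, rfl⟩) |
    ⟨i, j, k, ha, hb, hc, rfl⟩)
  · rw [SetLike.mem_coe, AddMonoidHom.mem_ker, Th_single]
    have : zc M (i, j) = 1 := by
      apply Subtype.ext
      change (QuotientGroup.mk (relator M i j) : EE M) = 1
      rcases h with rfl | h
      · rw [relator_self]; rfl
      · rw [relator_zero M h]; rfl
    rw [this]; rfl
  · rw [SetLike.mem_coe, AddMonoidHom.mem_ker, map_add, Th_single, Th_single, ← ofMul_mul]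
    have : zc M (i, j) * zc M (j, i) = 1 := by
      apply Subtype.ext
      change (QuotientGroup.mk (relator M i j) : EE M) * QuotientGroup.mk (relator M j i) = 1
      rw [relator_symm M i j, ← QuotientGroup.mk_mul, mul_inv_cancel]; rfl
    rw [this]; rfl
  · rw [SetLike.mem_coe, AddMonoidHom.mem_ker, map_sub, Th_single, Th_single, sub_eq_zero]
    congr 1
    apply Subtype.ext
    rw [← hval, ← hval]
    exact h1 i j k ha hb hc
  · rw [SetLike.mem_coe, AddMonoidHom.mem_ker, map_add, Th_single, ← ofMul_mul]
    have : zc M (i, k) * zc M (i, k) = 1 := by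
      apply Subtype.ext
      rw [Subgroup.coe_mul, ← hval]
      exact h2 i j k ha hb hc
    rw [this]; rfl

/-- detection by a central extension -/
theorem detect {C : Type} [AddCommGroup C] (c : B → B → C) (hc : Realizes M c) (x : B × B → ℤ)
    (hx : Th M x = 0) : ∑ p : B × B, x p • c p.1 p.2 = 0 := by
  obtain ⟨G, _, f, ι, hι, hcen, hv⟩ := hc
  set φ : FreeGroup B →* G := FreeGroup.lift f with hφ
  have h1 : rels M ≤ (Subgroup.center G).comap φ := by
    rw [rels]
    apply Subgroup.normalClosure_le_normal
    rintro _ ⟨i, j, rfl⟩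
    rw [SetLike.mem_coe, Subgroup.mem_comap, Subgroup.mem_center_iff, hφ, map_relator, hv]
    intro g
    exact (hcen _ g).symm
  have h2 : FR M ≤ φ.ker := by
    rw [FR, Subgroup.commutator_le]
    intro g _ r hr
    rw [MonoidHom.mem_ker, map_commutatorElement, commutatorElement_eq_one_iff_mul_comm]
    have := h1 hr
    rw [Subgroup.mem_comap, Subgroup.mem_center_iff] at this
    exact this _
  set ψ : EE M →* G := QuotientGroup.lift (FR M) φ h2 with hψ
  have h3 : ∀ p : B × B, ψ (zc M p : EE M) = ι (Multiplicative.ofAdd (c p.1 p.2)) := by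
    intro p
    change ψ (QuotientGroup.mk (relator M p.1 p.2)) = _
    rw [hψ, QuotientGroup.lift_mk, hφ, map_relator, hv]
  have h4 : ((Additive.toMul (Th M x) : Subgroup.center (EE M)) : EE M) = 1 := by
    rw [hx]; rfl
  have h5 : (Additive.toMul (Th M x) : Subgroup.center (EE M)) = ∏ p, zc M p ^ x p := by
    rw [Th_apply, toMul_sum]
    rfl
  have h6 : ι (Multiplicative.ofAdd (∑ p : B × B, x p • c p.1 p.2)) =
      ψ ((∏ p, zc M p ^ x p : Subgroup.center (EE M)) : EE M) := by
    set ψ' : Subgroup.center (EE M) →* G := ψ.comp (Subgroup.center (EE M)).subtype with hψ'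
    have h7 : ∀ s : Finset (B × B), ι (Multiplicative.ofAdd (∑ p ∈ s, x p • c p.1 p.2)) =
        ψ' (∏ p ∈ s, zc M p ^ x p) := by
      intro s
      induction s using Finset.induction_on with
      | empty => simp
      | insert p s hp ih =>
        rw [Finset.sum_insert hp, Finset.prod_insert hp, ofAdd_add, map_mul, map_mul, ih,
          map_zpow]
        congr 1
        change _ = ψ (zc M p : EE M) ^ x p
        rw [h3, ← map_zpow, ← ofAdd_zsmul]
    exact h7 Finset.univ
  rw [← h5, h4, map_one] at h6
  have h7 := hι (h6.trans (map_one ι).symm)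
  exact h7

lemma realizes_symm {C : Type} [AddCommGroup C] (c : B → B → C) (hc : Realizes M c) (i j : B) :
    c j i = - c i j := by
  obtain ⟨G, _, f, ι, hι, hcen, hv⟩ := hc
  have h1 : val M f j i = (val M f i j)⁻¹ := by
    simp [val, M.symmetric i j]
  rw [hv, hv, ← map_inv] at h1
  exact hι h1

open Classical in
theorem mem_relK (h1 : S_det1) (h2 : S_det2) (h3 : S_det3) (h4 : S_det4) (hs : S_sep)
    (x : B × B → ℤ) (hx : Th M x = 0) : x ∈ relK M := by
  apply hs B M x
  · intro a b hab h0 h2'
    have key : ∃ c : B → B → ℝ, Realizes M c ∧ c a b ≠ 0 ∧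
        ∀ i j, (i, j) ≠ (a, b) → (i, j) ≠ (b, a) → c i j = 0 := by
      rcases Nat.even_or_odd (M a b) with he | ho
      · have := M.off_diagonal a b hab
        apply h2 B M a b hab he
        obtain ⟨k, hk⟩ := he
        omega
      · exact h1 B M a b hab ho
    obtain ⟨c, hc, hcab, hc0⟩ := key
    have hd := detect M c hc x hx
    have hne : (a, b) ≠ (b, a) := by
      intro h
      exact hab (Prod.ext_iff.mp h).1
    have hsum : ∑ p : B × B, x p • c p.1 p.2 = x (a, b) • c a b + x (b, a) • c b a := by
      rw [← Finset.sum_subset (Finset.subset_univ ({(a, b), (b, a)} : Finset (B × B)))]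
      · rw [Finset.sum_pair hne]
      · intro p _ hp
        simp only [Finset.mem_insert, Finset.mem_singleton, not_or] at hp
        rw [hc0 p.1 p.2 hp.1 hp.2, smul_zero]
    rw [hsum, realizes_symm M c hc a b, smul_neg, ← sub_eq_add_neg, ← sub_smul,
      smul_eq_zero] at hd
    rcases hd with hd | hd
    · exact sub_eq_zero.mp hd
    · exact absurd hd hcab
  · intro a b hab hne
    obtain ⟨c, hc, hcv⟩ := h3 B M a b hab hne
    have hd := detect M c hc x hx
    have e1 : ∀ p : B × B, x p • c p.1 p.2 =
        (if Eqv M (a, b) p then x p else 0) - (if Eqv M (b, a) p then x p else 0) := by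
      intro p
      rw [hcv]
      have e2 : Eqv M (a, b) (p.2, p.1) ↔ Eqv M (b, a) p := by
        have := eqv_flip_iff M (p := (a, b)) (q := p)
        exact this
      rw [Prod.mk.eta, smul_sub]
      simp only [e2]
      congr 1 <;> split_ifs <;> simp
    simp only [e1, Finset.sum_sub_distrib] at hd
    exact sub_eq_zero.mp hd
  · intro a b hab heq
    obtain ⟨c, hc, hcv⟩ := h4 B M a b hab heq
    have hd := detect M c hc x hx
    have e1 : ∀ p : B × B, x p • c p.1 p.2 =
        ((if Eqv M (a, b) p then x p else 0 : ℤ) : ZMod 2) := by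
      intro p
      rw [hcv, Prod.mk.eta]
      split_ifs <;> simp
    simp only [e1] at hd
    rw [← Int.cast_sum] at hd
    rw [even_iff_two_dvd]
    exact (ZMod.intCast_zmod_eq_zero_iff_dvd _ 2).mp hd

/-- The boundary `C_2 → C_1 = ℤ^B` of the Salvetti complex: the `2`-cell of the pair `(i, j)` has
boundary `i - j` if `M i j` is odd and `0` otherwise. -/
noncomputable def bdry : (B × B → ℤ) →+ (B → ℤ) :=
  ∑ p : B × B, (zmultiplesHom (B → ℤ)
    (if Odd (M p.1 p.2) then Pi.single p.1 1 - Pi.single p.2 1 else 0)).comp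
      (Pi.evalAddMonoidHom _ p)

lemma bdry_single (p : B × B) : bdry M (Pi.single p 1) =
    if Odd (M p.1 p.2) then Pi.single p.1 1 - Pi.single p.2 1 else 0 := by
  simp only [bdry, AddMonoidHom.finsetSum_apply, AddMonoidHom.comp_apply,
    Pi.evalAddMonoidHom_apply, zmultiplesHom_apply]
  rw [Finset.sum_eq_single p]
  · simp
  · intro q _ hq
    simp [Pi.single_eq_of_ne hq]
  · simp

/-- abelianization of the free group -/
noncomputable def ab : FreeGroup B →* Multiplicative (B → ℤ) :=
  FreeGroup.lift fun i => Multiplicative.ofAdd (Pi.single i 1)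

lemma alt_comm {A : Type} [CommGroup A] (a b : A) (m : ℕ) :
    alt a b m * (alt b a m)⁻¹ = if Odd m then a * b⁻¹ else 1 := by
  rcases Nat.even_or_odd' m with ⟨k, rfl | rfl⟩
  · rw [alt_mul_two, alt_mul_two, mul_comm a b]
    simp
  · rw [alt_mul_two_add_one, alt_mul_two_add_one, mul_comm b a, if_pos (by simp), mul_inv_rev,
      mul_comm ((a * b) ^ k) a, mul_assoc, mul_comm b⁻¹, mul_inv_cancel_left]

lemma ab_relator (i j : B) :
    ab (relator M i j) = Multiplicative.ofAdd (bdry M (Pi.single (i, j) 1)) := by
  rw [ab, map_relator, val, bdry_single, alt_comm]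
  split_ifs <;> rfl

lemma ab_surj_ker : (ab : FreeGroup B →* Multiplicative (B → ℤ)).ker =
    commutator (FreeGroup B) := by
  apply le_antisymm _ (Abelianization.commutator_subset_ker _)
  set s : (B → ℤ) →+ Additive (Abelianization (FreeGroup B)) :=
    ∑ i, (zmultiplesHom _ (Additive.ofMul (Abelianization.of (FreeGroup.of i)))).comp
      (Pi.evalAddMonoidHom _ i) with hs
  have h2 : ∀ i, s (Pi.single i 1) = Additive.ofMul (Abelianization.of (FreeGroup.of i)) := by
    intro i
    simp only [hs, AddMonoidHom.finsetSum_apply, AddMonoidHom.comp_apply,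
      Pi.evalAddMonoidHom_apply, zmultiplesHom_apply]
    rw [Finset.sum_eq_single i]
    · simp
    · intro q _ hq
      simp [Pi.single_eq_of_ne hq]
    · simp
  have h1 : ∀ g : FreeGroup B, (Abelianization.of g : Abelianization (FreeGroup B)) =
      Additive.toMul (s (Multiplicative.toAdd (ab g))) := by
    intro g
    induction g using FreeGroup.induction_on with
    | C1 => simp
    | of i => rw [ab, FreeGroup.lift_apply_of, toAdd_ofAdd, h2]; rfl
    | inv_of i ih => rw [map_inv, map_inv, ih, toAdd_inv, map_neg, toMul_neg]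
    | mul x y hx hy => rw [map_mul, map_mul, hx, hy, toAdd_mul, map_add, toMul_add]
  intro g hg
  rw [MonoidHom.mem_ker] at hg
  have h3 : (Abelianization.of g : Abelianization (FreeGroup B)) = 1 := by
    rw [h1, hg, toAdd_one, map_zero, toMul_zero]
  exact (QuotientGroup.eq_one_iff g).mp h3

/-- boundary on `C_2 / ∂ C_3` -/
noncomputable def bdryQ (M : CoxeterMatrix B) : ((B × B → ℤ) ⧸ relK M) →+ (B → ℤ) :=
  QuotientAddGroup.lift (relK M) (bdry M) (by
    rw [relK, AddSubgroup.closure_le]
    rintro x (((⟨i, j, h, rfl⟩ | ⟨i, j, rfl⟩) | ⟨i, j, k, ha, hb, hc, rfl⟩) |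
      ⟨i, j, k, ha, hb, hc, rfl⟩)
    · rw [SetLike.mem_coe, AddMonoidHom.mem_ker, bdry_single]
      rcases h with rfl | h
      · simp
      · simp [h]
    · rw [SetLike.mem_coe, AddMonoidHom.mem_ker, map_add, bdry_single, bdry_single,
        M.symmetric j i]
      split_ifs <;> simp
    · rw [SetLike.mem_coe, AddMonoidHom.mem_ker, map_sub, bdry_single, bdry_single, ha, hb,
        if_neg (by decide), if_neg (by decide), sub_zero]
    · rw [SetLike.mem_coe, AddMonoidHom.mem_ker, map_add, bdry_single, ha,
        if_neg (by decide), add_zero])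

lemma bdryQ_mk (x : B × B → ℤ) : bdryQ M (QuotientAddGroup.mk x) = bdry M x := rfl

/-- `ab` on `F / [F, R]` -/
noncomputable def abE : EE M →* Multiplicative (B → ℤ) :=
  QuotientGroup.lift (FR M) ab (by
    rw [FR, Subgroup.commutator_le]
    intro g _ r _
    rw [MonoidHom.mem_ker, map_commutatorElement, commutatorElement_eq_one_iff_mul_comm]
    exact mul_comm _ _)

lemma abE_mk (g : FreeGroup B) : abE M (QuotientGroup.mk g) = ab g := rfl

/-- the map `Th` followed by the inclusion of the center -/
noncomputable def ThE : Multiplicative (B × B → ℤ) →* EE M where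
  toFun x := ((Additive.toMul (Th M (Multiplicative.toAdd x)) : Subgroup.center (EE M)) : EE M)
  map_one' := by rw [toAdd_one, map_zero]; rfl
  map_mul' x y := by rw [toAdd_mul, map_add, toMul_add]; rfl

lemma ThE_single (p : B × B) : ThE M (Multiplicative.ofAdd (Pi.single p 1)) =
    QuotientGroup.mk (relator M p.1 p.2) := by
  change ((Additive.toMul (Th M (Pi.single p 1)) : Subgroup.center (EE M)) : EE M) = _
  rw [Th_single]
  rfl

lemma pi_induction {P : (B × B → ℤ) → Prop} (h0 : P 0) (h1 : ∀ p, P (Pi.single p 1))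
    (ha : ∀ x y, P x → P y → P (x + y)) (hn : ∀ x, P x → P (-x)) (x : B × B → ℤ) : P x := by
  have hz : ∀ (p : B × B) (n : ℤ), P (Pi.single p n) := by
    intro p n
    induction n using Int.induction_on with
    | zero => rwa [Pi.single_zero]
    | succ n ih => rw [Pi.single_add]; exact ha _ _ ih (h1 p)
    | pred n ih =>
      rw [sub_eq_add_neg, Pi.single_add]
      apply ha _ _ ih
      rw [Pi.single_neg]
      exact hn _ (h1 p)
  have h2 : ∀ s : Finset (B × B), P (∑ p ∈ s, Pi.single p (x p)) := by
    intro s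
    induction s using Finset.induction_on with
    | empty => simpa using h0
    | insert p s hp ih => rw [Finset.sum_insert hp]; exact ha _ _ (hz p _) ih
  have := h2 Finset.univ
  rwa [Finset.univ_sum_single] at this

lemma abE_ThE (x : B × B → ℤ) :
    abE M (ThE M (Multiplicative.ofAdd x)) = Multiplicative.ofAdd (bdry M x) := by
  induction x using pi_induction with
  | h0 => rw [ofAdd_zero, map_one, map_one, map_zero, ofAdd_zero]
  | h1 p => rw [ThE_single, abE_mk, ab_relator]
  | ha x y hx hy => rw [ofAdd_add, map_mul, map_mul, hx, hy, map_add, ofAdd_add]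
  | hn x hx => rw [ofAdd_neg, map_inv, map_inv, hx, map_neg, ofAdd_neg]

/-- every element of the image is the class of a relation -/
lemma ThE_mem (x : B × B → ℤ) : ∃ g ∈ rels M,
    (QuotientGroup.mk g : EE M) = ThE M (Multiplicative.ofAdd x) := by
  induction x using pi_induction with
  | h0 => exact ⟨1, one_mem _, by rw [ofAdd_zero, map_one]; rfl⟩
  | h1 p => exact ⟨_, relator_mem M p.1 p.2, (ThE_single M p).symm⟩
  | ha x y hx hy =>
    obtain ⟨g, hg, h⟩ := hx
    obtain ⟨g', hg', h'⟩ := hy
    exact ⟨g * g', mul_mem hg hg', by rw [QuotientGroup.mk_mul, h, h', ofAdd_add, map_mul]⟩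
  | hn x hx =>
    obtain ⟨g, hg, h⟩ := hx
    exact ⟨g⁻¹, inv_mem hg, by rw [QuotientGroup.mk_inv, h, ofAdd_neg, map_inv]⟩

/-- the class of every relation is in the image -/
lemma mem_ThE {g : FreeGroup B} (hg : g ∈ rels M) : ∃ x : B × B → ℤ,
    (QuotientGroup.mk g : EE M) = ThE M (Multiplicative.ofAdd x) := by
  let S : Subgroup (FreeGroup B) := (ThE M).range.comap (QuotientGroup.mk' (FR M))
  have hS : ∀ {g : FreeGroup B}, g ∈ S ↔ ∃ x : B × B → ℤ,
      (QuotientGroup.mk g : EE M) = ThE M (Multiplicative.ofAdd x) := by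
    intro g
    constructor
    · rintro ⟨x, hx⟩
      exact ⟨Multiplicative.toAdd x, by rw [ofAdd_toAdd, hx]; rfl⟩
    · rintro ⟨x, hx⟩
      exact ⟨Multiplicative.ofAdd x, hx.symm⟩
  have hcen : ∀ (x : B × B → ℤ) (e : EE M), e * ThE M (Multiplicative.ofAdd x) * e⁻¹ =
      ThE M (Multiplicative.ofAdd x) := by
    intro x e
    have h := (Additive.toMul (Th M x)).2
    rw [Subgroup.mem_center_iff] at h
    change e * ((Additive.toMul (Th M x) : Subgroup.center (EE M)) : EE M) * e⁻¹ = _
    rw [h e, mul_inv_cancel_right]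
    rfl
  have hN : S.Normal := by
    constructor
    intro g hg y
    rw [hS] at hg ⊢
    obtain ⟨x, hx⟩ := hg
    exact ⟨x, by rw [QuotientGroup.mk_mul, QuotientGroup.mk_mul, QuotientGroup.mk_inv, hx, hcen]⟩
  have h1 : rels M ≤ S := by
    apply Subgroup.normalClosure_le_normal
    rintro _ ⟨i, j, rfl⟩
    rw [SetLike.mem_coe, hS]
    exact ⟨Pi.single (i, j) 1, (ThE_single M (i, j)).symm⟩
  exact hS.mp (h1 hg)

/-- the natural map on `C_2 / ∂ C_3` -/
noncomputable def ThQ (h : relK M ≤ (Th M).ker) :
    ((B × B → ℤ) ⧸ relK M) →+ Additive (Subgroup.center (EE M)) :=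
  QuotientAddGroup.lift (relK M) (Th M) h

/-- Hopf's formula for the second homology of the Artin group -/
abbrev hopf (M : CoxeterMatrix B) : Type :=
  ↥(rels M ⊓ commutator (FreeGroup B)) ⧸
    (⁅(⊤ : Subgroup (FreeGroup B)), rels M⁆).subgroupOf (rels M ⊓ commutator (FreeGroup B))

theorem main (hle : relK M ≤ (Th M).ker) (hge : ∀ x, Th M x = 0 → x ∈ relK M) :
    Nonempty (hopf M ≃* Multiplicative ↥(bdryQ M).ker) := by
  -- left side
  let A : Subgroup (FreeGroup B) := rels M ⊓ commutator (FreeGroup B)
  let α : A →* EE M := (QuotientGroup.mk' (FR M)).comp A.subtype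
  have hα : α.ker = (FR M).subgroupOf A := by
    ext g
    rw [MonoidHom.mem_ker, Subgroup.mem_subgroupOf]
    exact QuotientGroup.eq_one_iff _
  -- right side
  let β : Multiplicative ↥(bdryQ M).ker →* EE M :=
    { toFun := fun x => ((Additive.toMul (ThQ M hle (Multiplicative.toAdd x).1) :
        Subgroup.center (EE M)) : EE M)
      map_one' := by
        rw [toAdd_one]
        change ((Additive.toMul (ThQ M hle 0) : Subgroup.center (EE M)) : EE M) = 1
        rw [map_zero]; rfl
      map_mul' := by
        intro x y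
        rw [toAdd_mul]
        change ((Additive.toMul (ThQ M hle ((Multiplicative.toAdd x).1 +
          (Multiplicative.toAdd y).1)) : Subgroup.center (EE M)) : EE M) = _
        rw [map_add, toMul_add]; rfl }
  have hβ : Function.Injective β := by
    rw [injective_iff_map_eq_one]
    intro x hx
    obtain ⟨⟨y, hy⟩, rfl⟩ : ∃ y, Multiplicative.ofAdd y = x := ⟨Multiplicative.toAdd x, rfl⟩
    induction y using QuotientAddGroup.induction_on with
    | H y =>
      have h1 : Th M y = 0 := by
        apply Additive.toMul.injective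
        apply Subtype.ext
        exact hx
      have h2 := hge y h1
      have h3 : (QuotientAddGroup.mk y : (B × B → ℤ) ⧸ relK M) = 0 :=
        (QuotientAddGroup.eq_zero_iff y).mpr h2
      rw [← ofAdd_zero]
      congr 1
      exact Subtype.ext h3
  have hr : α.range = β.range := by
    ext e
    constructor
    · rintro ⟨⟨g, hg1, hg2⟩, rfl⟩
      obtain ⟨x, hx⟩ := mem_ThE M hg1
      have h1 : ab g = Multiplicative.ofAdd (bdry M x) := by
        rw [← abE_ThE, ← hx, abE_mk]
      have h2 : ab g = 1 := by
        rw [← MonoidHom.mem_ker, ab_surj_ker]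
        exact hg2
      rw [h2] at h1
      have h3 : bdry M x = 0 := h1.symm
      refine ⟨Multiplicative.ofAdd ⟨QuotientAddGroup.mk x, h3⟩, ?_⟩
      exact hx.symm
    · rintro ⟨x, rfl⟩
      obtain ⟨⟨y, hy⟩, rfl⟩ : ∃ y, Multiplicative.ofAdd y = x := ⟨Multiplicative.toAdd x, rfl⟩
      induction y using QuotientAddGroup.induction_on with
      | H y =>
        obtain ⟨g, hg, h⟩ := ThE_mem M y
        have h1 : ab g = Multiplicative.ofAdd (bdry M y) := by
          rw [← abE_ThE, ← h, abE_mk]
        have h2 : bdry M y = 0 := hy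
        have h3 : g ∈ commutator (FreeGroup B) := by
          rw [← ab_surj_ker, MonoidHom.mem_ker, h1, h2, ofAdd_zero]
        exact ⟨⟨g, hg, h3⟩, h⟩
  refine ⟨?_⟩
  exact (QuotientGroup.quotientMulEquivOfEq hα.symm).trans
    ((QuotientGroup.quotientKerEquivRange α).trans
      ((MulEquiv.subgroupCongr hr).trans (MonoidHom.ofInjective hβ).symm))

end Theta

end Pool.Agent.TH901.H2A
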