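import Pool.Agent.Helper741.Matsumoto

/-!
# The second homology of Artin groups: definitions and statements of the pieces

`F` is the free group on the finite set `B`, `R` the normal closure of the Artin relators of a
Coxeter matrix `M` (the entry `0` stands for infinity).  Goal: `R / [F, R]` is the abelian group
generated by the relators subject only to the relations coming from the `3`-cells of the Salvetti
complex, hence `H_2` of the Artin group (Hopf's formula) is the one predicted by the `K(π,1)`
conjecture.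
-/

set_option autoImplicit false

namespace Pool.Agent.TH901.H2A

open Pool.Agent.Helper741

section Defs

variable {B : Type} (M : CoxeterMatrix B)

/-- The Artin relator of the pair `(i, j)`: the quotient `(i j i ⋯) (j i j ⋯)⁻¹` of the two
alternating words with `M i j` letters (`M i j = 0` means that there is no relation). -/
def relator (i j : B) : FreeGroup B :=
  alt (FreeGroup.of i) (FreeGroup.of j) (M i j) *
    (alt (FreeGroup.of j) (FreeGroup.of i) (M i j))⁻¹

/-- The normal closure of the relators; the Artin group is the quotient by it. -/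
def rels : Subgroup (FreeGroup B) := Subgroup.normalClosure {x | ∃ i j, x = relator M i j}

/-- Moves between ordered pairs of commuting generators. -/
inductive Mv : B × B → B × B → Prop
  | left {i j k : B} : M i k = 2 → M j k = 2 → Odd (M i j) → Mv (i, k) (j, k)
  | right {i j k : B} : M k i = 2 → M k j = 2 → Odd (M i j) → Mv (k, i) (k, j)
  | swap {i j k : B} : M i k = 2 → M i j = 3 → M j k = 3 → Mv (i, k) (k, i)

/-- The equivalence relation generated by the moves. -/
def Eqv : B × B → B × B → Prop := Relation.EqvGen (Mv M)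

/-- The value of the relator `(i, j)` under `f`. -/
def val {G : Type} [Group G] (f : B → G) (i j : B) : G :=
  alt (f i) (f j) (M i j) * (alt (f j) (f i) (M i j))⁻¹

/-- The values `c i j` of the relators are realised by a central extension: there are a group `G`
with a central subgroup `C` and elements `f i` for which the relator `(i, j)` has the value
`c i j`. -/
def Realizes {C : Type} [AddCommGroup C] (c : B → B → C) : Prop :=
  ∃ (G : Type) (_ : Group G) (f : B → G) (ι : Multiplicative C →* G),
    Function.Injective ι ∧ (∀ x g, ι x * g = g * ι x) ∧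
    ∀ i j, val M f i j = ι (Multiplicative.ofAdd (c i j))

end Defs

/-! ### The group with prescribed commutators -/

/-- The list `x, g y, g h x, g h g y, ⋯` with `m` entries. -/
def sq {Γ X : Type} [Group Γ] (act : Γ →* Equiv.Perm X) (g h : Γ) (x y : X) (m : ℕ) : List X :=
  (List.range m).map fun k => act (alt g h k) (if Even k then x else y)

/-- the sum of `ω (x_k, x_l)` over `k < l` -/
def sumw {X C : Type} [AddCommGroup C] (ω : X → X → C) : List X → C
  | [] => 0
  | x :: l => (l.map (ω x)).sum + sumw ω l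

/-- REAL -/
def S_real : Prop := ∀ (B Γ X C : Type) [Group Γ] [AddCommGroup C] (M : CoxeterMatrix B)
    (act : Γ →* Equiv.Perm X) (ω : X → X → C),
    (∀ x, ω x x = 0) → (∀ x y, ω x y + ω y x = 0) →
    (∀ g x y, ω (act g x) (act g y) = ω x y) →
    ∀ (x : B → X) (g : B → Γ),
    (∀ i j, i ≠ j → M i j ≠ 0 → alt (g i) (g j) (M i j) = alt (g j) (g i) (M i j)) →
    (∀ i j, i ≠ j → M i j ≠ 0 → sq act (g j) (g i) (x j) (x i) (M i j) =
      (sq act (g i) (g j) (x i) (x j) (M i j)).reverse) →
    ∃ c : B → B → C, Realizes M c ∧ (∀ i j, i = j ∨ M i j = 0 → c i j = 0) ∧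
      ∀ i j, i ≠ j → M i j ≠ 0 → c i j = sumw ω (sq act (g i) (g j) (x i) (x j) (M i j))

/-! ### Dihedral computations in a non-symmetric reflection representation -/

section Rep

variable {B : Type} [Fintype B] [DecidableEq B] (M : CoxeterMatrix B) (κ : B → B → ℝ)

/-- the scaling factors of the Cartan matrix `- 2 cos (π / M i j) κ i j` -/
def KC : Prop := (∀ i j, 0 < κ i j) ∧ (∀ i j, κ i j * κ j i = 1)

/-- the coroots -/
noncomputable def co (i : B) : Module.Dual ℝ (B → ℝ) :=
  ∑ j, (-2 * cc M i j * κ i j) • LinearMap.proj j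

/-- the reflections -/
noncomputable def rf (hκ : KC κ) (i : B) : (B → ℝ) ≃ₗ[ℝ] (B → ℝ) :=
  Module.reflection (x := (Pi.single i 1 : B → ℝ)) (f := co M κ i) (by
    have h := hκ.2 i i
    have h0 := hκ.1 i i
    have h1 : κ i i = 1 := by nlinarith
    simp [co, LinearMap.sum_apply, Pi.single_apply, h1])

end Rep

/-- DIH -/
def S_dih : Prop := ∀ (B : Type) [Fintype B] [DecidableEq B] (M : CoxeterMatrix B)
    (κ : B → B → ℝ) (hκ : KC κ) (i j : B), i ≠ j → M i j ≠ 0 →
    alt (rf M κ hκ i) (rf M κ hκ j) (M i j) = alt (rf M κ hκ j) (rf M κ hκ i) (M i j) ∧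
    (∀ k : ℕ, (alt (rf M κ hκ i) (rf M κ hκ j) k) (if Even k then ee i else ee j) =
      if Even k then qs (cc M i j) (k + 1) • ee i + ((κ i j)⁻¹ * qs (cc M i j) k) • ee j
      else (κ i j * qs (cc M i j) (k + 1)) • ee i + qs (cc M i j) k • ee j) ∧
    (∀ k : ℕ, (if Even k then co M κ i else co M κ j) ∘ₗ
        ((alt (rf M κ hκ i) (rf M κ hκ j) k)⁻¹ : (B → ℝ) ≃ₗ[ℝ] (B → ℝ)).toLinearMap =
      if Even k then qs (cc M i j) (k + 1) • co M κ i + (κ i j * qs (cc M i j) k) • co M κ j
      else ((κ i j)⁻¹ * qs (cc M i j) (k + 1)) • co M κ i + qs (cc M i j) k • co M κ j) ∧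
    (∀ n : ℕ, n ≤ M i j → qs (cc M i j) (M i j - n) = qs (cc M i j) n)

/-! ### Detection -/

/-- DET1 -/
def S_det1 : Prop := ∀ (B : Type) [Fintype B] [DecidableEq B] (M : CoxeterMatrix B) (a b : B),
    a ≠ b → Odd (M a b) → ∃ c : B → B → ℝ, Realizes M c ∧ c a b ≠ 0 ∧
      ∀ i j, (i, j) ≠ (a, b) → (i, j) ≠ (b, a) → c i j = 0

/-- DET2 -/
def S_det2 : Prop := ∀ (B : Type) [Fintype B] [DecidableEq B] (M : CoxeterMatrix B) (a b : B),
    a ≠ b → Even (M a b) → 4 ≤ M a b → ∃ c : B → B → ℝ, Realizes M c ∧ c a b ≠ 0 ∧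
      ∀ i j, (i, j) ≠ (a, b) → (i, j) ≠ (b, a) → c i j = 0

open Classical in
/-- DET3 -/
def S_det3 : Prop := ∀ (B : Type) [Fintype B] [DecidableEq B] (M : CoxeterMatrix B) (a b : B),
    M a b = 2 → ¬ Eqv M (a, b) (b, a) → ∃ c : B → B → ℤ, Realizes M c ∧
      ∀ i j, c i j = (if Eqv M (a, b) (i, j) then 1 else 0) -
        (if Eqv M (a, b) (j, i) then 1 else 0)

open Classical in
/-- DET4 -/
def S_det4 : Prop := ∀ (B : Type) [Fintype B] [DecidableEq B] (M : CoxeterMatrix B) (a b : B),
    M a b = 2 → Eqv M (a, b) (b, a) → ∃ c : B → B → ZMod 2, Realizes M c ∧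
      ∀ i j, c i j = if Eqv M (a, b) (i, j) then 1 else 0

/-! ### Pairs of commuting simple reflections -/

/-- R3: rank three -/
def S_r3 : Prop := ∀ (B : Type) [Fintype B] [DecidableEq B] (M : CoxeterMatrix B) (W : Type)
    [Group W] (cs : CoxeterSystem M W) (a b c a' b' : B) (x : W),
    (∀ t, t = a ∨ t = b ∨ t = c) → a ≠ c → b ≠ c → M a b = 2 →
    x * cs.simple a * x⁻¹ = cs.simple a' → x * cs.simple b * x⁻¹ = cs.simple b' →
    Eqv M (a, b) (a', b')

/-- PAIR: conjugates of a pair of commuting simple reflections inside a parabolic subgroup of rank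
two -/
def S_pair : Prop := ∀ (B : Type) [Fintype B] [DecidableEq B] (M : CoxeterMatrix B) (W : Type)
    [Group W] (cs : CoxeterSystem M W) (a b i j : B) (g : W), M a b = 2 → i ≠ j →
    g * cs.simple a * g⁻¹ ∈ Subgroup.closure {cs.simple i, cs.simple j} →
    g * cs.simple b * g⁻¹ ∈ Subgroup.closure {cs.simple i, cs.simple j} →
    M i j = 2 ∧
      ((g * cs.simple a * g⁻¹ = cs.simple i ∧ g * cs.simple b * g⁻¹ = cs.simple j ∧
          Eqv M (a, b) (i, j)) ∨
        (g * cs.simple a * g⁻¹ = cs.simple j ∧ g * cs.simple b * g⁻¹ = cs.simple i ∧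
          Eqv M (a, b) (j, i)))

/-- CONJ: equivalent pairs are conjugate -/
def S_conj : Prop := ∀ (B : Type) [Fintype B] [DecidableEq B] (M : CoxeterMatrix B) (W : Type)
    [Group W] (cs : CoxeterSystem M W) (a b i j : B), M a b = 2 → Eqv M (a, b) (i, j) →
    M i j = 2 ∧ ∃ g : W, g * cs.simple a * g⁻¹ = cs.simple i ∧ g * cs.simple b * g⁻¹ = cs.simple j

/-! ### The relations between the relators -/

/-- UP: the relations of the `3`-cells hold -/
def S_up : Prop := ∀ (B : Type) (M : CoxeterMatrix B) (G : Type) [Group G] (f : B → G),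
    (∀ i j g, val M f i j * g = g * val M f i j) →
    (∀ i j k, M i k = 2 → M j k = 2 → Odd (M i j) → val M f i k = val M f j k) ∧
    (∀ i j k, M i k = 2 → M i j = 3 → M j k = 3 → val M f i k * val M f i k = 1)

section Chain

variable {B : Type} [Fintype B] [DecidableEq B] (M : CoxeterMatrix B)

/-- The relations between the classes of the relators: the trivial relators, the orientation, and
the boundaries of the `3`-cells of type `A_1 × I_2(m)` with `m` odd and of type `A_3`. -/
def relK : AddSubgroup (B × B → ℤ) := AddSubgroup.closure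
  ({x | ∃ i j, (i = j ∨ M i j = 0) ∧ x = Pi.single (i, j) 1} ∪
    {x | ∃ i j, x = Pi.single (i, j) 1 + Pi.single (j, i) 1} ∪
    {x | ∃ i j k, M i k = 2 ∧ M j k = 2 ∧ Odd (M i j) ∧
      x = Pi.single (i, k) 1 - Pi.single (j, k) 1} ∪
    {x | ∃ i j k, M i k = 2 ∧ M i j = 3 ∧ M j k = 3 ∧
      x = Pi.single (i, k) 1 + Pi.single (i, k) 1})

end Chain

open Classical in
/-- SEP: the functionals of DET1, DET2, DET3, DET4 separate the classes -/
def S_sep : Prop := ∀ (B : Type) [Fintype B] [DecidableEq B] (M : CoxeterMatrix B)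
    (x : B × B → ℤ),
    (∀ a b, a ≠ b → M a b ≠ 0 → M a b ≠ 2 → x (a, b) = x (b, a)) →
    (∀ a b, M a b = 2 → ¬ Eqv M (a, b) (b, a) →
      ∑ p, (if Eqv M (a, b) p then x p else 0) = ∑ p, (if Eqv M (b, a) p then x p else 0)) →
    (∀ a b, M a b = 2 → Eqv M (a, b) (b, a) →
      Even (∑ p, (if Eqv M (a, b) p then x p else 0))) →
    x ∈ relK M

end Pool.Agent.TH901.H2A
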